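import Pool.Agent.H7.LP.Targets3

/-!
# Groups with locally compact pieces, strong transfer: translation of labels (row LBT)
-/

set_option autoImplicit false

open Set Filter Topology

namespace Pool.Agent.H5.LQ

open Pool.Agent.H93.CP Pool.Agent.H7.LP Pool.Agent.H7.LQ

theorem pf_LBT (h1 : Pool.Agent.H7.LP.T_LAB) : T_LBT := by
  intro G X _ _ _ _ L M _ Y k x g
  obtain ⟨l1, l2, -, -, -, -, l7⟩ := h1 G
  refine ⟨fun n => l1 _ _ n, l7 _ _, fun h hh => ?_, fun m => ?_⟩
  · unfold lb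
    rw [tr_mul]
    exact l2 (L.R k) (L.H k) (tr g (Y.C x)) (L.piece k) h hh
  · unfold lb
    rw [Y.smul, tr_mul]

end Pool.Agent.H5.LQ
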